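import Pool.Agent.V1173.NatBd.Sum

/-!
# MP_ca9574_an : natural boundaries on affine discs

There is a function in `A^∞(B)` (hence in the ball algebra) whose restriction to every affine disc
`Φ(U)`, `Φ(T) ⊂ S`, has the unit circle as its natural boundary.
-/

open Metric

namespace Pool.Agent.Results.MP_ca9574_an.NaturalBoundary

open Pool.Agent.V1173.NatBd

/-- The ball algebra `A(B)`: continuous on the closed unit ball of `ℂⁿ`, holomorphic inside. -/
def BallAlgebra (n : ℕ) : Set (EuclideanSpace ℂ (Fin n) → ℂ) :=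
  {f | ContinuousOn f (closedBall 0 1) ∧ DifferentiableOn ℂ f (ball 0 1)}

/-- The complex partial derivative `∂f/∂zᵢ`. -/
noncomputable def pd {n : ℕ} (i : Fin n) (f : EuclideanSpace ℂ (Fin n) → ℂ) :
    EuclideanSpace ℂ (Fin n) → ℂ :=
  fun z => fderiv ℂ f z (EuclideanSpace.single i 1)

/-- Iterated complex partial derivatives, indexed by lists of coordinates. -/
noncomputable def pds {n : ℕ} (l : List (Fin n)) (f : EuclideanSpace ℂ (Fin n) → ℂ) :
    EuclideanSpace ℂ (Fin n) → ℂ :=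
  l.foldr pd f

/-- `A^∞(B)`: holomorphic in `B`, and all partial derivatives, of every order (including `f`
itself, for the empty list), extend continuously to the closed ball. -/
def AInfty (n : ℕ) : Set (EuclideanSpace ℂ (Fin n) → ℂ) :=
  {f | DifferentiableOn ℂ f (ball 0 1) ∧
    ∀ l : List (Fin n), ∃ F : EuclideanSpace ℂ (Fin n) → ℂ,
      ContinuousOn F (closedBall 0 1) ∧ Set.EqOn F (pds l f) (ball 0 1)}

/-- `g`, holomorphic in the unit disc `U`, has the unit circle `T` as its natural boundary: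
for no `τ ∈ T` is there an open disc `D ∋ τ` and a holomorphic `h` on `D` with `h = g` on
`D ∩ U`. -/
def HasNaturalBoundary (g : ℂ → ℂ) : Prop :=
  DifferentiableOn ℂ g (ball 0 1) ∧
  ∀ τ : ℂ, ‖τ‖ = 1 → ¬ ∃ (c : ℂ) (r : ℝ) (h : ℂ → ℂ), τ ∈ ball c r ∧
    DifferentiableOn ℂ h (ball c r) ∧ Set.EqOn h g (ball c r ∩ ball 0 1)

/-- Property (NB): `f ∘ Φ` has `T` as its natural boundary for every nonconstant affine
`Φ(l) = a + l b` with `Φ(T) ⊂ S`. -/
def PropNB {n : ℕ} (f : EuclideanSpace ℂ (Fin n) → ℂ) : Prop :=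
  ∀ a b : EuclideanSpace ℂ (Fin n), b ≠ 0 → (∀ l : ℂ, ‖l‖ = 1 → ‖a + l • b‖ = 1) →
    HasNaturalBoundary fun l => f (a + l • b)

open scoped InnerProductSpace

theorem norm_sq_line {n : ℕ} {a b : EuclideanSpace ℂ (Fin n)} (h0 : ⟪a, b⟫_ℂ = 0) (l : ℂ) :
    ‖a + l • b‖ ^ 2 = ‖a‖ ^ 2 + ‖l‖ ^ 2 * ‖b‖ ^ 2 := by
  rw [@norm_add_sq ℂ, inner_smul_right, h0, mul_zero, norm_smul, mul_pow]
  simp

theorem affine_disc {n : ℕ} {a b : EuclideanSpace ℂ (Fin n)}
    (h : ∀ l : ℂ, ‖l‖ = 1 → ‖a + l • b‖ = 1) : ⟪a, b⟫_ℂ = 0 ∧ ‖a‖ ^ 2 + ‖b‖ ^ 2 = 1 := by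
  have key : ∀ l : ℂ, ‖l‖ = 1 → ‖a‖ ^ 2 + 2 * (l * ⟪a, b⟫_ℂ).re + ‖b‖ ^ 2 = 1 := by
    intro l hl
    have h1 := @norm_add_sq ℂ _ _ _ _ a (l • b)
    rw [h l hl, inner_smul_right, norm_smul, hl] at h1
    simp only [RCLike.re_to_complex] at h1
    linarith
  have h1 := key 1 (by simp)
  have h2 := key (-1) (by simp)
  have h3 := key Complex.I (by simp)
  simp only [one_mul, neg_mul, Complex.neg_re, Complex.I_mul_re] at h1 h2 h3
  refine ⟨Complex.ext ?_ ?_, by linarith⟩
  · simp only [Complex.zero_re]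
    linarith
  · simp only [Complex.zero_im]
    linarith

theorem result (n : ℕ) (_hn : 1 < n) :
    ∃ f : EuclideanSpace ℂ (Fin n) → ℂ, f ∈ BallAlgebra n ∧ f ∈ AInfty n ∧ PropNB f := by
  obtain ⟨s, w, c, hadm, hlow⟩ := exists_data (n := n) (by omega)
  have hdiff : ∀ c' : ℕ → Q n → ℂ, Adm s w c' →
      DifferentiableOn ℂ (FS s w c') (ball 0 1) := fun c' hc' z hz =>
    (FS_hasFDerivAt hc' hz).differentiableAt.differentiableWithinAt
  refine ⟨FS s w c, ⟨FS_continuousOn hadm, hdiff c hadm⟩, ⟨hdiff c hadm, ?_⟩, ?_⟩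
  · -- partial derivatives
    intro l
    have key : ∃ c' : ℕ → Q n → ℂ, Adm s w c' ∧
        Set.EqOn (FS s w c') (pds l (FS s w c)) (ball 0 1) := by
      induction l with
      | nil => exact ⟨c, hadm, fun _ _ => rfl⟩
      | cons i l ih =>
        obtain ⟨c', hc', heq⟩ := ih
        refine ⟨_, hc'.mul_inner (EuclideanSpace.single i 1), fun z hz => ?_⟩
        rw [← FS_fderiv_apply hc' hz]
        have h1 : FS s w c' =ᶠ[nhds z] pds l (FS s w c) :=
          Filter.eventuallyEq_of_mem (isOpen_ball.mem_nhds hz) heq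
        have h2 : pds (i :: l) (FS s w c) z =
          fderiv ℂ (pds l (FS s w c)) z (EuclideanSpace.single i 1) := rfl
        rw [h2, h1.fderiv_eq]
    obtain ⟨c', hc', heq⟩ := key
    exact ⟨FS s w c', FS_continuousOn hc', heq⟩
  · -- natural boundary
    intro a b hb hab
    obtain ⟨h0, h1⟩ := affine_disc hab
    have hbpos : 0 < ‖b‖ := norm_pos_iff.mpr hb
    have hb1 : ‖b‖ ≤ 1 := by
      have : ‖b‖ ^ 2 ≤ 1 := by nlinarith [sq_nonneg ‖a‖]
      nlinarith
    have hin : ∀ l : ℂ, ‖l‖ < 1 → a + l • b ∈ ball (0 : EuclideanSpace ℂ (Fin n)) 1 := by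
      intro l hl
      rw [mem_ball_zero_iff]
      have h2 := norm_sq_line h0 l
      have h3 : ‖l‖ ^ 2 < 1 := by nlinarith [norm_nonneg l]
      have h4 : ‖l‖ ^ 2 * ‖b‖ ^ 2 < 1 * ‖b‖ ^ 2 := by
        apply mul_lt_mul_of_pos_right h3
        positivity
      have h5 : ‖a + l • b‖ ^ 2 < 1 := by linarith
      nlinarith [norm_nonneg (a + l • b)]
    have hin' : ∀ l : ℂ, ‖l‖ ≤ 1 → a + l • b ∈ closedBall (0 : EuclideanSpace ℂ (Fin n)) 1 := by
      intro l hl
      rw [mem_closedBall_zero_iff]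
      have h2 := norm_sq_line h0 l
      have h3 : ‖l‖ ^ 2 ≤ 1 := by nlinarith [norm_nonneg l]
      have h4 : ‖l‖ ^ 2 * ‖b‖ ^ 2 ≤ 1 * ‖b‖ ^ 2 := by gcongr
      have h5 : ‖a + l • b‖ ^ 2 ≤ 1 := by linarith
      nlinarith [norm_nonneg (a + l • b)]
    set G : ℕ → ℂ → ℂ := fun k l => FS s w (fun j q => c j q * ⟪w j q, b⟫_ℂ ^ k) (a + l • b) with hG
    have hG0 : G 0 = fun l => FS s w c (a + l • b) := by
      simp [hG]
    have hGd : ∀ k l, ‖l‖ < 1 → HasDerivAt (G k) (G (k + 1) l) l := fun k l hl =>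
      FS_line_hasDerivAt hadm a b k (hin l hl)
    have hGc : ∀ k, ContinuousOn (G k) (closedBall 0 1) := by
      intro k
      refine (FS_continuousOn (hadm.mul_inner_pow b k)).comp (by fun_prop) ?_
      intro l hl
      exact hin' l (mem_closedBall_zero_iff.mp hl)
    refine ⟨?_, ?_⟩
    · rw [← hG0]
      exact fun l hl => (hGd 0 l (mem_ball_zero_iff.mp hl)).differentiableAt.differentiableWithinAt
    intro τ hτ
    rintro ⟨c₁, r, h, hτD, hh, heq⟩
    -- iterated derivatives agree in `D ∩ U`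
    have hopen : IsOpen (ball c₁ r ∩ ball (0 : ℂ) 1) := isOpen_ball.inter isOpen_ball
    have hiter : ∀ k, Set.EqOn (iteratedDeriv k h) (G k) (ball c₁ r ∩ ball 0 1) := by
      intro k
      induction k with
      | zero =>
        intro l hl
        rw [iteratedDeriv_zero, heq hl, hG0]
      | succ k ih =>
        intro l hl
        rw [iteratedDeriv_succ]
        have h2 : iteratedDeriv k h =ᶠ[nhds l] G k :=
          Filter.eventuallyEq_of_mem (hopen.mem_nhds hl) ih
        rw [h2.deriv_eq]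
        exact (hGd k l (mem_ball_zero_iff.mp hl.2)).deriv
    have hana : AnalyticOnNhd ℂ h (ball c₁ r) := hh.analyticOnNhd isOpen_ball
    have hcl : τ ∈ closure (ball c₁ r ∩ ball (0 : ℂ) 1) := by
      apply isOpen_ball.inter_closure
      refine ⟨hτD, ?_⟩
      rw [closure_ball (0 : ℂ) one_ne_zero]
      simp [hτ]
    have hval : ∀ k, iteratedDeriv k h τ = G k τ := by
      intro k
      have hne : (nhdsWithin τ (ball c₁ r ∩ ball (0 : ℂ) 1)).NeBot :=
        mem_closure_iff_nhdsWithin_neBot.mp hcl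
      have h2 : Filter.Tendsto (iteratedDeriv k h) (nhdsWithin τ (ball c₁ r ∩ ball (0 : ℂ) 1))
          (nhds (iteratedDeriv k h τ)) := by
        have h21 : ContinuousAt (iteratedDeriv k h) τ := by
          rw [iteratedDeriv_eq_iterate]
          exact ((hana.iterated_deriv k) τ hτD).continuousAt
        exact h21.tendsto.mono_left nhdsWithin_le_nhds
      have h3 : Filter.Tendsto (G k) (nhdsWithin τ (ball c₁ r ∩ ball (0 : ℂ) 1))
          (nhds (G k τ)) := by
        have h31 := (hGc k) τ (by simp [hτ])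
        exact h31.mono_left (nhdsWithin_mono _ (fun x hx => ball_subset_closedBall hx.2))
      have h4 : Filter.Tendsto (iteratedDeriv k h) (nhdsWithin τ (ball c₁ r ∩ ball (0 : ℂ) 1))
          (nhds (G k τ)) := by
        refine h3.congr' ?_
        filter_upwards [self_mem_nhdsWithin] with x hx
        exact (hiter k hx).symm
      exact tendsto_nhds_unique h2 h4
    -- Cauchy estimates at `τ`
    obtain ⟨R, hR, hRsub⟩ : ∃ R > 0, closedBall τ R ⊆ ball c₁ r :=
      nhds_basis_closedBall.mem_iff.mp (isOpen_ball.mem_nhds hτD)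
    obtain ⟨C, hC⟩ : ∃ C, ∀ z ∈ sphere τ R, ‖h z‖ ≤ C :=
      (isCompact_sphere τ R).exists_bound_of_continuousOn
        (hh.continuousOn.mono (sphere_subset_closedBall.trans hRsub))
    have hcauchy : ∀ k, ‖iteratedDeriv k h τ‖ ≤ k.factorial * C / R ^ k := by
      intro k
      refine Complex.norm_iteratedDeriv_le_of_forall_mem_sphere_norm_le k hR ?_ hC
      exact (hh.mono hRsub).diffContOnCl_ball subset_rfl
    have hC0 : 0 ≤ C := by
      obtain ⟨z, hz⟩ : (sphere τ R).Nonempty := NormedSpace.sphere_nonempty.mpr hR.le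
      exact (norm_nonneg _).trans (hC z hz)
    -- choose a large stage
    obtain ⟨j, hj⟩ := exists_nat_ge (max (max C (1 / R)) (1 / ‖b‖ ^ 2))
    have hj1 : C ≤ j := (le_max_left _ _).trans ((le_max_left _ _).trans hj)
    have hj2 : 1 / R ≤ j := (le_max_right _ _).trans ((le_max_left _ _).trans hj)
    have hj3 : 1 / ‖b‖ ^ 2 ≤ j := (le_max_right _ _).trans hj
    have hζb : ‖⟪a + τ • b, b⟫_ℂ‖ = ‖b‖ ^ 2 := by
      rw [inner_add_left, h0, zero_add, inner_smul_left, norm_mul, RCLike.norm_conj, hτ, one_mul,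
        inner_self_eq_norm_sq_to_K]
      simp
    have hcond : 1 / ((j : ℝ) + 1) ≤ ‖⟪a + τ • b, b⟫_ℂ‖ := by
      rw [hζb, div_le_iff₀ (by positivity)]
      rw [div_le_iff₀ (by positivity)] at hj3
      nlinarith [sq_nonneg ‖b‖]
    obtain ⟨k, hk⟩ := hlow j (a + τ • b) b (hab τ hτ) hb1 hcond
    have h5 : ((j : ℝ) + 1) ^ (k + 1) * k.factorial ≤ k.factorial * C / R ^ k := by
      refine hk.trans ?_
      have := hcauchy k
      rw [hval k] at this
      exact this
    have hfac : (0 : ℝ) < k.factorial := by exact_mod_cast k.factorial_pos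
    have h6 : ((j : ℝ) + 1) ^ (k + 1) ≤ C * (1 / R) ^ k := by
      have h7 : (k.factorial : ℝ) * C / R ^ k = (C * (1 / R) ^ k) * k.factorial := by
        rw [one_div, inv_pow]
        ring
      rw [h7] at h5
      exact le_of_mul_le_mul_right h5 hfac
    have h8 : C * (1 / R) ^ k ≤ j * ((j : ℝ) + 1) ^ k := by
      have : (1 / R) ^ k ≤ ((j : ℝ) + 1) ^ k := by
        gcongr
        linarith
      gcongr
    have h9 : (j : ℝ) * ((j : ℝ) + 1) ^ k < ((j : ℝ) + 1) ^ (k + 1) := by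
      rw [pow_succ, mul_comm]
      have : (0 : ℝ) < ((j : ℝ) + 1) ^ k := by positivity
      nlinarith
    linarith

end Pool.Agent.Results.MP_ca9574_an.NaturalBoundary
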